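import Pool.Agent.Lib_helper93.Mink.Exist

/-!
# MP_bff676_an: the minimal carrier capacity of Minkowski's question mark measure

All definitions used in the statement are in `Pool.Agent.Lib_helper93.Mink.Defs`.
-/

open MeasureTheory Filter Polynomial
open scoped Topology ENNReal
open Pool.Agent.Lib_helper93.Mink

namespace Pool.Agent.Results.MP_bff676_an.CarrierCapacity

/-- Non-vacuity: the question mark measure, its orthonormal polynomials and its recurrence
coefficients exist. -/
theorem exists_data : ∃ (μ : Measure ℝ) (p : ℕ → ℝ[X]) (a b : ℕ → ℝ),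
    IsQuestionMarkMeasure μ ∧ IsOrthonormal μ p ∧ IsRecurrence p a b := by
  obtain ⟨μ, hμ⟩ := exists_measure
  obtain ⟨p, hp⟩ := exists_orthonormal hμ
  obtain ⟨a, b, hab⟩ := exists_recurrence hμ hp
  exact ⟨μ, p, a, b, hμ, hp, hab⟩

/-- For Minkowski's question mark measure `μ`, the geometric means `(a_1 ⋯ a_n)^{1/n}` of the
recurrence coefficients converge, and their limit equals the minimal carrier capacity `c(μ)`;
both are `1/4`. -/
theorem result (μ : Measure ℝ) (p : ℕ → ℝ[X]) (a b : ℕ → ℝ) (hμ : IsQuestionMarkMeasure μ)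
    (hp : IsOrthonormal μ p) (hab : IsRecurrence p a b) :
    Tendsto (fun n : ℕ => (∏ k ∈ Finset.range n, a (k + 1)) ^ (1 / (n : ℝ))) atTop (𝓝 (1 / 4)) ∧
      carrierCap μ = ENNReal.ofReal (1 / 4) :=
  ⟨geomMean_tendsto hμ hp hab, carrierCap_eq hμ⟩

end Pool.Agent.Results.MP_bff676_an.CarrierCapacity
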